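import Pool.Agent.R851.SK.MainF
import Pool.Agent.N24.RW.Stm

set_option autoImplicit false

/-!
# Linear recurrences with random coefficients from the orbit of a thin group: the local analysis
-/

namespace Pool.Agent.N475.RS

open Filter Topology Pool.Agent.R851.SK Pool.Agent.N24.RW Pool.Agent.H884R2.Sko

/-- the constant of the local density -/
def cM (d : ℕ) : ℕ := 4 * (2 * (2 * d)) ^ (d - 1) * d.factorial

theorem cM_pos (d : ℕ) (hd : 1 ≤ d) : 0 < cM d := by
  have h2 : 0 < (2 * (2 * d)) ^ (d - 1) := pow_pos (by omega) _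
  have h1 := Nat.factorial_pos d
  unfold cM
  positivity

/-- the weights -/
noncomputable def wt (k : ℕ) (δ : ℝ) (p : ℕ) : ℝ := if k ∣ p - 1 then δ else 0

theorem wt_nonneg (k : ℕ) (δ : ℝ) (hδ : 0 ≤ δ) (p : ℕ) : 0 ≤ wt k δ p := by
  unfold wt
  split_ifs
  · exact hδ
  · exact le_rfl

theorem wt_sum (k : ℕ) (hk : k ≠ 0) (δ : ℝ) (hδ : 0 < δ) :
    ¬ Summable (fun p : ℕ => if p.Prime then wt k δ p else 0) := by
  intro hs
  have h1 := hs.tendsto_atTop_zero
  have h2 : ∀ᶠ p : ℕ in atTop, (if p.Prime then wt k δ p else 0) < δ :=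
    h1.eventually_lt_const hδ
  obtain ⟨p, ⟨hp, hpk⟩, hp2⟩ := ((Nat.frequently_atTop_modEq_one hk).and_eventually h2).exists
  rw [if_pos hp, wt, if_pos ((Nat.modEq_iff_dvd' hp.one_lt.le).1 hpk.symm)] at hp2
  exact lt_irrefl _ hp2

/-- the number of the good residues for prescribed initial values -/
theorem card_Om (p : ℕ) (hp : p.Prime) (d : ℕ) (hd : 1 ≤ d) (hp' : 2 * (2 * d) * d + 2 ≤ p)
    (hk : 2 * d ∣ p - 1) (a : Fin d → ZMod p) (ha : ∀ j, a j ≠ 0) :
    p ^ d ≤ cM d * Nat.card {c : Fin d → ZMod p // GoodF a (fun i => c (Fin.rev i))} := by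
  classical
  have : Fact p.Prime := ⟨hp⟩
  have h1 := card_goodF p d (2 * d) ((p - 1) / (2 * d)) hd rfl (Nat.mul_div_cancel' hk) hp' a ha
  have h2 : Nat.card {c : Fin d → ZMod p // GoodF a (fun i => c (Fin.rev i))} =
      ((Finset.univ : Finset (Fin d → ZMod p)).filter (fun c => GoodF a c)).card := by
    rw [← Fintype.card_subtype, ← Nat.card_eq_fintype_card]
    apply Nat.card_congr
    exact
      { toFun := fun c => ⟨fun i => c.1 (Fin.rev i), c.2⟩
        invFun := fun c => ⟨fun i => c.1 (Fin.rev i), by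
          have := c.2
          simp only [Fin.rev_rev]
          exact this⟩
        left_inv := fun c => by
          apply Subtype.ext
          funext i
          simp
        right_inv := fun c => by
          apply Subtype.ext
          funext i
          simp }
  rw [h2]
  exact h1

/-- the initial values: coordinates of `x` at the places in `J`, prescribed at the other places -/
def init {R : Type} {d : ℕ} (J : Finset (Fin d)) (b : Fin d → R) (x : Fin d ⊕ J → R) (i : Fin d) : R :=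
  if h : i ∈ J then x (Sum.inr ⟨i, h⟩) else b i

/-- the good residues -/
def Om {d : ℕ} (J : Finset (Fin d)) (b : Fin d → ℤ) (p : ℕ) : Set (Fin d ⊕ J → ZMod p) :=
  {x | (∀ j, x (Sum.inr j) ≠ 0) ∧
    GoodF (p := p) (init J (fun i => (b i : ZMod p)) x) (fun i => x (Sum.inl (Fin.rev i)))}

/-- the number of the good residues -/
theorem card_Om2 (p : ℕ) (hp : p.Prime) (d : ℕ) (hd : 1 ≤ d) (hp' : 2 * (2 * d) * d + 2 ≤ p)
    (hk : 2 * d ∣ p - 1) (J : Finset (Fin d)) (b : Fin d → ℤ) (hb : ∀ i, i ∉ J → (b i : ZMod p) ≠ 0) :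
    p ^ (d + J.card) ≤ 2 ^ J.card * cM d * (Om J b p).ncard := by
  classical
  have : Fact p.Prime := ⟨hp⟩
  have e1 : (Om J b p).ncard = Nat.card (Σ a : {a : J → ZMod p // ∀ i, a i ≠ 0},
      {c : Fin d → ZMod p // GoodF (p := p) (init J (fun i => (b i : ZMod p)) (Sum.elim 0 a.1))
        (fun i => c (Fin.rev i))}) := by
    rw [← Nat.card_coe_set_eq]
    exact Nat.card_congr
      { toFun := fun x => ⟨⟨fun i => x.1 (Sum.inr i), x.2.1⟩, ⟨fun i => x.1 (Sum.inl i), x.2.2⟩⟩
        invFun := fun y => ⟨Sum.elim y.2.1 y.1.1, y.1.2, y.2.2⟩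
        left_inv := fun x => by
          apply Subtype.ext
          funext i
          cases i <;> rfl
        right_inv := fun y => rfl }
  have e2 : Nat.card {a : J → ZMod p // ∀ i, a i ≠ 0} = (p - 1) ^ J.card := by
    rw [Nat.card_congr (Equiv.subtypePiEquivPi (p := fun (_ : J) (x : ZMod p) => x ≠ 0)), Nat.card_fun,
      ← Nat.card_congr (unitsEquivNeZero (G₀ := ZMod p)), Nat.card_eq_fintype_card, ZMod.card_units,
      Nat.card_eq_fintype_card, Fintype.card_coe]
  have e3 : (p - 1) ^ J.card * p ^ d ≤ cM d * (Om J b p).ncard := by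
    rw [e1, Nat.card_sigma, Finset.mul_sum, ← e2, Nat.card_eq_fintype_card, ← smul_eq_mul, ← Finset.card_univ,
      ← Finset.sum_const]
    refine Finset.sum_le_sum fun a _ => card_Om p hp d hd hp' hk _ fun i => ?_
    unfold init
    split_ifs with h
    · exact a.2 _
    · exact hb i h
  have e4 : p ^ J.card ≤ 2 ^ J.card * (p - 1) ^ J.card := by
    rw [← mul_pow]
    apply Nat.pow_le_pow_left
    have := hp.two_le
    omega
  calc p ^ (d + J.card) = p ^ J.card * p ^ d := by rw [pow_add, mul_comm]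
    _ ≤ 2 ^ J.card * (p - 1) ^ J.card * p ^ d := Nat.mul_le_mul_right _ e4
    _ = 2 ^ J.card * ((p - 1) ^ J.card * p ^ d) := mul_assoc _ _ _
    _ ≤ 2 ^ J.card * (cM d * (Om J b p).ncard) := Nat.mul_le_mul_left _ e3
    _ = _ := (mul_assoc _ _ _).symm

/-- the number which the primes have to exceed -/
def T0 {d : ℕ} (J : Finset (Fin d)) (b : Fin d → ℤ) : ℕ :=
  max (2 * (2 * d) * d + 2) (∏ i ∈ Finset.univ \ J, b i).natAbs

/-- the bad data for prescribed initial values outside of `J` -/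
theorem null_one (hC : S_CRIT) (d : ℕ) (hd : 1 ≤ d) (J : Finset (Fin d)) (b : Fin d → ℤ)
    (hb : ∀ i, i ∉ J → b i ≠ 0) :
    ProNull {x : Fin d ⊕ J → ℤ | ∀ p, p.Prime → T0 J b < p → (fun i => (x i : ZMod p)) ∉ Om J b p} := by
  have hM : (0 : ℝ) < 2 ^ J.card * cM d := by
    have := cM_pos d hd
    positivity
  refine hC (Fin d ⊕ J) (fun p => p) (fun p hp => hp.one_lt.le)
    (fun p p' hp hp' h => (Nat.coprime_primes hp hp').2 h) (Om J b) _ (wt (2 * d) (1 / (2 ^ J.card * cM d)))
    (wt_nonneg _ _ (by positivity)) (wt_sum _ (by omega) _ (by positivity)) ?_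
  intro p hp hpT
  unfold wt
  split_ifs with hk
  · have h0 : ∀ j, j ∉ J → ((b j : ℤ) : ZMod p) ≠ 0 := by
      intro j hjJ hj
      rw [ZMod.intCast_zmod_eq_zero_iff_dvd] at hj
      have h2 := hj.trans (Finset.dvd_prod_of_mem b (s := Finset.univ \ J)
        (Finset.mem_sdiff.2 ⟨Finset.mem_univ j, hjJ⟩))
      have h3 := Int.natAbs_dvd_natAbs.2 h2
      rw [Int.natAbs_natCast] at h3
      have h4 := Nat.le_of_dvd (Int.natAbs_pos.2 (Finset.prod_ne_zero_iff.2 fun i hi =>
        hb i (Finset.mem_sdiff.1 hi).2)) h3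
      have h5 := le_max_right (2 * (2 * d) * d + 2) (∏ i ∈ Finset.univ \ J, b i).natAbs
      unfold T0 at hpT
      omega
    have h5 := le_max_left (2 * (2 * d) * d + 2) (∏ i ∈ Finset.univ \ J, b i).natAbs
    unfold T0 at hpT
    have h1 := card_Om2 p hp d hd (by omega) hk J b h0
    rw [Fintype.card_sum, Fintype.card_fin, Fintype.card_coe, one_div, inv_mul_le_iff₀ hM]
    exact_mod_cast h1
  · rw [zero_mul]
    exact Nat.cast_nonneg _

/-- a certificate: no term of `u` is divisible by `p`, and `u` has period `p - 1` modulo `p` -/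
def Cert (p : ℕ) (u : ℕ → ℤ) : Prop :=
  p.Prime ∧ ∀ n, ¬ (p : ℤ) ∣ u n ∧ (p : ℤ) ∣ u (n + (p - 1)) - u n

/-- the data for which some nonzero initial values up to `D` have no certificate -/
theorem null_all (hC : S_CRIT) (hD : S_CLO) (d : ℕ) (hd : 1 ≤ d) (J : Finset (Fin d)) (D : ℕ) :
    ProNull {x : Fin d ⊕ J → ℤ | ¬ ∀ (b : Fin d → ℤ) (u : ℕ → ℤ), (∀ i, |b i| ≤ (D : ℤ)) →
      (∀ i, init J b x i ≠ 0) → IsSeq (fun i => x (Sum.inl i)) (init J b x) u → ∃ p, Cert p u} := by
  classical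
  obtain ⟨c1, c2, -, -, -⟩ := hD (Fin d ⊕ J)
  have hempty : ProNull (∅ : Set (Fin d ⊕ J → ℤ)) := by
    intro M hM ε hε
    refine ⟨1, one_pos, Nat.coprime_one_left M, ?_⟩
    rw [Set.image_empty, Set.ncard_empty, Nat.cast_zero]
    positivity
  -- the finite union
  have hun : ∀ S : Finset (Fin d → ℤ), ProNull {x : Fin d ⊕ J → ℤ | ∃ b ∈ S, (∀ i, i ∉ J → b i ≠ 0) ∧
      ∀ p, p.Prime → T0 J b < p → (fun i => (x i : ZMod p)) ∉ Om J b p} := by
    intro S
    induction S using Finset.induction_on with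
    | empty =>
      refine c1 _ _ ?_ hempty
      rintro c ⟨a, ha, -⟩
      exact absurd ha (Finset.notMem_empty a)
    | insert a S _ ih =>
      by_cases ha : ∀ i, i ∉ J → a i ≠ 0
      · refine c1 _ _ ?_ (c2 _ _ (null_one hC d hd J a ha) ih)
        rintro c ⟨b, hb, hb1, hb2⟩
        rcases Finset.mem_insert.1 hb with rfl | hb
        · exact Or.inl hb2
        · exact Or.inr ⟨b, hb, hb1, hb2⟩
      · refine c1 _ _ ?_ ih
        rintro c ⟨b, hb, hb1, hb2⟩
        rcases Finset.mem_insert.1 hb with rfl | hb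
        · exact absurd hb1 ha
        · exact ⟨b, hb, hb1, hb2⟩
  refine c1 _ _ ?_ (hun (Fintype.piFinset fun _ : Fin d => Finset.Icc (-(D : ℤ)) D))
  intro x hc
  rw [Set.mem_ofPred_eq] at hc
  push Not at hc
  obtain ⟨b, u, hbD, hb, hu, hno⟩ := hc
  refine ⟨b, ?_, fun i hi => ?_, ?_⟩
  · rw [Fintype.mem_piFinset]
    intro i
    rw [Finset.mem_Icc]
    exact abs_le.1 (hbD i)
  · have h1 := hb i
    unfold init at h1
    rwa [dif_neg hi] at h1
  · intro p hp _ hG
    have h2 : (fun i => ((init J b x i : ℤ) : ZMod p)) =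
        init J (fun i => (b i : ZMod p)) (fun i => (x i : ZMod p)) := by
      funext i
      unfold init
      split_ifs <;> rfl
    refine hno p ⟨hp, goodF_cert _ _ u hu p ?_⟩
    rw [h2]
    exact hG.2

end Pool.Agent.N475.RS
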